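import Pool.Agent.Y133.Half.Gr0

/-!
# The span of a finite group of operators which permutes the words up to signs
-/

set_option autoImplicit false
set_option linter.unusedSectionVars false

namespace Pool.Agent.Q57.NL

open Module Pool.Agent.Y133.Half
open scoped TensorProduct

section closed

variable {K M ι G : Type*} [Field K] [AddCommGroup M] [Module K M] [FiniteDimensional K M]
  [Fintype ι] [DecidableEq ι] {N : ℕ} [Group G] [Finite G]

/-- The algebra spanned by a representation. -/
noncomputable def gAlg (ρ : G →* Module.End K M) : Subalgebra K (Module.End K M) :=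
  (MonoidAlgebra.lift K _ _ ρ).range

instance gAlg_ss [CharZero K] (ρ : G →* Module.End K M) : IsSemisimpleRing (gAlg ρ) := by
  have hne : NeZero ((Nat.card G : K)) :=
    ⟨Nat.cast_ne_zero.2 Nat.card_pos.ne'⟩
  have h1 : IsSemisimpleRing (MonoidAlgebra K G) := by
    unfold IsSemisimpleRing
    infer_instance
  let f : MonoidAlgebra K G →+* gAlg ρ :=
    ((MonoidAlgebra.lift K _ _ ρ).rangeRestrict).toRingHom
  have hf : Function.Surjective f := AlgHom.rangeRestrict_surjective _
  exact RingHom.isSemisimpleRing_of_surjective f hf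

lemma g_mem (ρ : G →* Module.End K M) (σ : G) : ρ σ ∈ gAlg ρ :=
  ⟨MonoidAlgebra.single σ 1, by
    change MonoidAlgebra.lift K _ _ ρ (MonoidAlgebra.single σ 1) = _
    rw [MonoidAlgebra.lift_single, one_smul]⟩

lemma gAlg_le (ρ : G →* Module.End K M) :
    Subalgebra.toSubmodule (gAlg ρ) ≤ Submodule.span K (Set.range ρ) := by
  rintro _ ⟨x, rfl⟩
  change MonoidAlgebra.lift K _ _ ρ x ∈ _
  rw [MonoidAlgebra.lift_apply, Finsupp.sum]
  exact Submodule.sum_mem _ fun σ _ => Submodule.smul_mem _ _ (Submodule.subset_span ⟨σ, rfl⟩)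

theorem span_grp_closed [IsAlgClosed K] [CharZero K] (e : Basis (Fin N → ι) K M)
    (ρ : G →* Module.End K M)
    (hP : ∀ σ : Equiv.Perm (Fin N), ∃ g : G, ∀ w, ∃ s : K, s ≠ 0 ∧ ρ g (e (w ∘ σ)) = s • e w) :
    finrank K M ^ 2 ≤ finrank K (Submodule.span K (Set.range ρ)) *
      (N + 1) ^ (Fintype.card ι ^ 2) := by
  choose g hg using hP
  let D : Submodule K (Module.End K M) :=
    { carrier := {u | ∀ σ m, u (ρ σ m) = ρ σ (u m)}
      zero_mem' := fun σ m => by rw [LinearMap.zero_apply, LinearMap.zero_apply, map_zero]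
      add_mem' := fun {a b} ha hb σ m => by
        rw [LinearMap.add_apply, LinearMap.add_apply, ha σ m, hb σ m, map_add]
      smul_mem' := fun c a ha σ m => by
        rw [LinearMap.smul_apply, LinearMap.smul_apply, ha σ m, map_smul] }
  have h1 := commutant_le e (fun σ => ρ (g σ)) hg D fun u hu σ m => hu (g σ) m
  have h2 := sq_le_mul_commutant K (gAlg ρ) M D fun u hu σ m => hu ⟨_, g_mem ρ σ⟩ m
  have h3 : finrank K (gAlg ρ) ≤ finrank K (Submodule.span K (Set.range ρ)) :=
    Submodule.finrank_mono (gAlg_le ρ)
  exact h2.trans (Nat.mul_le_mul h3 h1)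

end closed

section general

variable {K M ι G : Type*} [Field K] [AddCommGroup M] [Module K M] [FiniteDimensional K M]
  [Fintype ι] [DecidableEq ι] {N : ℕ} [Group G] [Finite G]

/-- **The dimension of the span of the group.** -/
theorem span_grp [CharZero K] (e : Basis (Fin N → ι) K M) (ρ : G →* Module.End K M)
    (hP : ∀ σ : Equiv.Perm (Fin N), ∃ g : G, ∀ w, ∃ s : K, s ≠ 0 ∧ ρ g (e (w ∘ σ)) = s • e w) :
    finrank K M ^ 2 ≤ finrank K (Submodule.span K (Set.range ρ)) *
      (N + 1) ^ (Fintype.card ι ^ 2) := by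
  have hc : CharZero (AlgebraicClosure K) :=
    charZero_of_injective_algebraMap (algebraMap K (AlgebraicClosure K)).injective
  let ρ' : G →* Module.End (AlgebraicClosure K) (AlgebraicClosure K ⊗[K] M) :=
    { toFun := fun σ => (ρ σ).baseChange (AlgebraicClosure K)
      map_one' := by rw [map_one, LinearMap.baseChange_one]
      map_mul' := fun σ τ => by rw [map_mul, LinearMap.baseChange_mul] }
  have h := span_grp_closed (e.baseChange (AlgebraicClosure K)) ρ' (by
    intro σ
    obtain ⟨g, hg⟩ := hP σ
    refine ⟨g, fun w => ?_⟩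
    obtain ⟨s, hs, h⟩ := hg w
    refine ⟨algebraMap K _ s, (map_ne_zero _).2 hs, ?_⟩
    rw [Basis.baseChange_apply, Basis.baseChange_apply]
    change (ρ g).baseChange (AlgebraicClosure K) _ = _
    rw [LinearMap.baseChange_tmul, h, TensorProduct.tmul_smul, algebraMap_smul])
  have h1 := finrank_span_bc (AlgebraicClosure K) (Set.range ρ)
  have h2 : (fun u : Module.End K M => u.baseChange (AlgebraicClosure K)) '' Set.range ρ =
      Set.range ρ' := by
    rw [← Set.range_comp]; rfl
  rw [h2] at h1
  rw [Module.finrank_baseChange] at h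
  exact h.trans (Nat.mul_le_mul_right _ h1)

/-- An operator of small rank is killed by an idempotent of the algebra of the group. -/
lemma exists_idem_small [CharZero K] (ρ : G →* Module.End K M) (T : Module.End K M)
    (h : finrank K (LinearMap.range T) * finrank K M <
      finrank K (Submodule.span K (Set.range ρ))) :
    ∃ e ∈ gAlg ρ, e * e = e ∧ e ≠ 0 ∧ e * T = 0 := by
  let B := Subalgebra.toSubmodule (gAlg ρ)
  have h3 : finrank K (Submodule.span K (Set.range ρ)) ≤ finrank K B := by
    apply Submodule.finrank_mono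
    rw [Submodule.span_le]
    rintro _ ⟨σ, rfl⟩
    exact g_mem ρ σ
  let Ψ : B →ₗ[K] (LinearMap.range T →ₗ[K] M) :=
    { toFun := fun E => (E : Module.End K M) ∘ₗ (LinearMap.range T).subtype
      map_add' := fun E F => rfl
      map_smul' := fun r E => rfl }
  have h4 : LinearMap.ker Ψ ≠ ⊥ := by
    intro hker
    have h5 := LinearMap.finrank_le_finrank_of_injective (LinearMap.ker_eq_bot.1 hker)
    rw [Module.finrank_linearMap] at h5
    omega
  obtain ⟨E, hE, hE0⟩ := Submodule.exists_mem_ne_zero_of_ne_bot h4
  let J : Ideal (gAlg ρ) :=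
    { carrier := {x | (x : Module.End K M) * T = 0}
      zero_mem' := zero_mul _
      add_mem' := fun {a b} ha hb => by
        change ((a : Module.End K M) + b) * T = 0
        rw [add_mul, show (a : Module.End K M) * T = 0 from ha,
          show (b : Module.End K M) * T = 0 from hb, add_zero]
      smul_mem' := fun c x hx => by
        change ((c : Module.End K M) * x) * T = 0
        rw [mul_assoc, show (x : Module.End K M) * T = 0 from hx, mul_zero] }
  obtain ⟨e, he, hJ⟩ := IsSemisimpleRing.ideal_eq_span_idempotent J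
  have hEJ : (⟨E, E.2⟩ : gAlg ρ) ∈ J := by
    change (E : Module.End K M) * T = 0
    apply LinearMap.ext
    intro x
    exact congrArg (fun g : LinearMap.range T →ₗ[K] M => g ⟨T x, x, rfl⟩) (LinearMap.mem_ker.1 hE)
  have heJ : e ∈ J := by rw [hJ]; exact Ideal.mem_span_singleton_self e
  refine ⟨e, e.2, congrArg Subtype.val he, ?_, heJ⟩
  intro h0
  have h0' : e = 0 := Subtype.ext h0
  rw [hJ, h0', Ideal.span_singleton_eq_bot.2 rfl, Ideal.mem_bot] at hEJ
  exact hE0 (Subtype.ext (congrArg Subtype.val hEJ))

end general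

section signed

variable {K V β : Type*} [Field K] [AddCommGroup V] [Module K V] [Finite β] (e : Basis β K V)

/-- The basis vectors and their negatives. -/
def sgnSet : Set V := {x | ∃ b, x = e b ∨ x = - e b}

lemma finite_sgnSet : (sgnSet e).Finite := by
  have h : sgnSet e = Set.range e ∪ Set.range fun b => - e b := by
    ext x
    simp only [sgnSet, Set.mem_setOf_eq, Set.mem_union, Set.mem_range]
    constructor
    · rintro ⟨b, h | h⟩
      · exact Or.inl ⟨b, h.symm⟩
      · exact Or.inr ⟨b, h.symm⟩
    · rintro (⟨b, h⟩ | ⟨b, h⟩)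
      · exact ⟨b, Or.inl h.symm⟩
      · exact ⟨b, Or.inr h.symm⟩
  rw [h]
  exact (Set.finite_range _).union (Set.finite_range _)

/-- The operators which permute the basis vectors up to signs. -/
def monGrp : Subgroup (Module.End K V)ˣ where
  carrier := {u | ∀ x, x ∈ sgnSet e ↔ (u : Module.End K V) x ∈ sgnSet e}
  one_mem' := fun x => Iff.rfl
  mul_mem' := fun {a b} ha hb x => (hb x).trans (ha _)
  inv_mem' := fun {a} ha x => by
    have h1 : (a : Module.End K V) (((a⁻¹ : (Module.End K V)ˣ) : Module.End K V) x) = x := by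
      have := congrArg (fun f : Module.End K V => f x) a.mul_inv
      exact this
    rw [ha (((a⁻¹ : (Module.End K V)ˣ) : Module.End K V) x), h1]

instance finite_monGrp : Finite (monGrp e) := by
  have := (finite_sgnSet e).to_subtype
  refine Finite.of_injective
    (fun u : monGrp e => fun x : sgnSet e =>
      (⟨((u : (Module.End K V)ˣ) : Module.End K V) x, (u.2 x).1 x.2⟩ : sgnSet e)) ?_
  intro u v h
  apply Subtype.ext
  apply Units.ext
  apply e.ext
  intro b
  have h1 := congrFun h ⟨e b, b, Or.inl rfl⟩
  exact congrArg Subtype.val h1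

end signed

end Pool.Agent.Q57.NL
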