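import Pool.Agent.Q57.NL.KC
import Pool.Agent.Q57.NL.Grp

/-!
# A basis of the realisation of a tensor power which is permuted up to signs
-/

set_option autoImplicit false
set_option linter.unusedSectionVars false
set_option linter.unusedSimpArgs false
set_option backward.isDefEq.respectTransparency false
set_option backward.defeqAttrib.useBackward true

open CategoryTheory Limits MonoidalCategory
open Pool.Agent.Y112.SR Pool.Agent.Y112.KD Pool.Agent.Y112.SC

namespace Pool.Agent.Q57.NL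

universe v u w

open Functor.LaxMonoidal Functor.OplaxMonoidal
open scoped TensorProduct

section

variable {C : Type u} [Category.{v} C] [Preadditive C] [MonoidalCategory C] [SymmetricCategory C]
  {K : Type w} [Field K] (R : SuperRealisation C K)

/-- The tensor product of two vectors. -/
noncomputable def tm {Q X : C} (q : R.H.obj Q) (x : R.H.obj X) : R.H.obj (Q ⊗ X) :=
  (μ R.H Q X).hom ((q ⊗ₜ[K] x : R.H.obj Q ⊗[K] R.H.obj X))

lemma delta_tm {Q X : C} (q : R.H.obj Q) (x : R.H.obj X) :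
    (δ R.H Q X).hom (tm R q x) = (q ⊗ₜ[K] x : R.H.obj Q ⊗[K] R.H.obj X) := by
  have h := congrArg ModuleCat.Hom.hom (Functor.Monoidal.μ_δ R.H Q X)
  exact LinearMap.congr_fun h (q ⊗ₜ[K] x : R.H.obj Q ⊗[K] R.H.obj X)

lemma bx_tm {Q X : C} (a : R.H.obj Q ⟶ R.H.obj Q) (b : R.H.obj X ⟶ R.H.obj X)
    (q : R.H.obj Q) (x : R.H.obj X) : (bx R a b).hom (tm R q x) = tm R (a.hom q) (b.hom x) := by
  have h1 : (bx R a b).hom (tm R q x) =
      (μ R.H Q X).hom ((a ⊗ₘ b).hom ((δ R.H Q X).hom (tm R q x))) := rfl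
  rw [h1, delta_tm]
  rfl

lemma assoc_tm {Q X Y : C} (q : R.H.obj Q) (x : R.H.obj X) (y : R.H.obj Y) :
    (R.H.map (α_ Q X Y).hom).hom (tm R (tm R q x) y) = tm R q (tm R x y) := by
  have h1 := Functor.LaxMonoidal.associativity (F := R.H) Q X Y
  have h2 := congrArg ModuleCat.Hom.hom h1
  exact LinearMap.congr_fun h2 ((q ⊗ₜ[K] x) ⊗ₜ[K] y :
    (R.H.obj Q ⊗[K] R.H.obj X) ⊗[K] R.H.obj Y)

lemma assoc_inv_tm {Q X Y : C} (q : R.H.obj Q) (x : R.H.obj X) (y : R.H.obj Y) :
    (R.H.map (α_ Q X Y).inv).hom (tm R q (tm R x y)) = tm R (tm R q x) y := by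
  rw [← assoc_tm]
  have h1 : R.H.map (α_ Q X Y).hom ≫ R.H.map (α_ Q X Y).inv = 𝟙 _ := by
    rw [← Functor.map_comp, Iso.hom_inv_id, CategoryTheory.Functor.map_id]
  exact LinearMap.congr_fun (congrArg ModuleCat.Hom.hom h1) (tm R (tm R q x) y)

lemma tm_smul_right {Q X : C} (c : K) (q : R.H.obj Q) (x : R.H.obj X) :
    tm R q (c • x) = c • tm R q x := by
  rw [tm, TensorProduct.tmul_smul, map_smul]
  rfl

lemma tm_smul_left {Q X : C} (c : K) (q : R.H.obj Q) (x : R.H.obj X) :
    tm R (c • q) x = c • tm R q x := by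
  rw [tm, ← TensorProduct.smul_tmul', map_smul]
  rfl

/-- The symmetry on homogeneous vectors. -/
lemma braid_tm (h2 : (2 : K) ≠ 0) {X Y : C} {x : R.H.obj X} {y : R.H.obj Y} {a b : K}
    (ha : a = 1 ∨ a = -1) (hb : b = 1 ∨ b = -1) (hx : (R.par X).hom x = a • x)
    (hy : (R.par Y).hom y = b • y) :
    ∃ s : K, (s = 1 ∨ s = -1) ∧ (R.H.map (β_ X Y).hom).hom (tm R x y) = s • tm R y x := by
  have h1 := LinearMap.congr_fun (congrArg ModuleCat.Hom.hom (R.symm X Y))
    (x ⊗ₜ[K] y : R.H.obj X ⊗[K] R.H.obj Y)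
  have h3 : (2 : K) • (R.H.map (β_ X Y).hom).hom (tm R x y) =
      tm R y x + tm R y ((R.par X).hom x) + tm R ((R.par Y).hom y) x -
        tm R ((R.par Y).hom y) ((R.par X).hom x) := by
    refine h1.trans ?_
    have h4 : ((𝟙 _ + R.par X ▷ R.H.obj Y + R.H.obj X ◁ R.par Y - (R.par X ⊗ₘ R.par Y)) ≫
      (β_ (R.H.obj X) (R.H.obj Y)).hom ≫ μ R.H Y X).hom
        (x ⊗ₜ[K] y : R.H.obj X ⊗[K] R.H.obj Y) =
      (μ R.H Y X).hom ((β_ (R.H.obj X) (R.H.obj Y)).hom.hom
        ((x ⊗ₜ[K] y) + (((R.par X).hom x) ⊗ₜ[K] y) + (x ⊗ₜ[K] ((R.par Y).hom y)) -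
          (((R.par X).hom x) ⊗ₜ[K] ((R.par Y).hom y)) : R.H.obj X ⊗[K] R.H.obj Y)) := rfl
    rw [h4, map_sub, map_add, map_add, map_sub, map_add, map_add]
    rfl
  rw [hx, hy, tm_smul_left, tm_smul_right, tm_smul_left, tm_smul_right] at h3
  have h5 : ∀ c : K, (2 : K) • (R.H.map (β_ X Y).hom).hom (tm R x y) = (2 * c) • tm R y x →
      (R.H.map (β_ X Y).hom).hom (tm R x y) = c • tm R y x := by
    intro c hc
    have h6 := congrArg (fun z => (2 : K)⁻¹ • z) hc
    simp only [smul_smul, inv_mul_cancel₀ h2, one_smul, ← mul_assoc, one_mul] at h6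
    exact h6
  rcases ha with rfl | rfl <;> rcases hb with rfl | rfl
  · exact ⟨1, Or.inl rfl, h5 1 (by rw [h3]; module)⟩
  · exact ⟨1, Or.inl rfl, h5 1 (by rw [h3]; module)⟩
  · exact ⟨1, Or.inl rfl, h5 1 (by rw [h3]; module)⟩
  · exact ⟨-1, Or.inr rfl, h5 (-1) (by rw [h3]; module)⟩

/-- The exchange of the last two factors on homogeneous vectors. -/
lemma sw_tm (h2 : (2 : K) ≠ 0) {Q X : C} (q : R.H.obj Q) {x y : R.H.obj X} {a b : K}
    (ha : a = 1 ∨ a = -1) (hb : b = 1 ∨ b = -1) (hx : (R.par X).hom x = a • x)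
    (hy : (R.par X).hom y = b • y) :
    ∃ s : K, (s = 1 ∨ s = -1) ∧
      (R.H.map (sw Q X)).hom (tm R (tm R q x) y) = s • tm R (tm R q y) x := by
  obtain ⟨s, hs, h⟩ := braid_tm R h2 ha hb hx hy
  refine ⟨s, hs, ?_⟩
  have e1 : R.H.map (Q ◁ (β_ X X).hom) = bx R (𝟙 _) (R.H.map (β_ X X).hom) := by
    rw [← CategoryTheory.Functor.map_id, bx_map, id_tensorHom]
  have e2 : R.H.map (sw Q X) = R.H.map (α_ Q X X).hom ≫ bx R (𝟙 _) (R.H.map (β_ X X).hom) ≫
      R.H.map (α_ Q X X).inv := by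
    rw [sw, Functor.map_comp, Functor.map_comp, e1]
  have e3 : (R.H.map (sw Q X)).hom (tm R (tm R q x) y) =
      (R.H.map (α_ Q X X).inv).hom ((bx R (𝟙 _) (R.H.map (β_ X X).hom)).hom
        ((R.H.map (α_ Q X X).hom).hom (tm R (tm R q x) y))) := by
    rw [e2]
    rfl
  rw [e3, assoc_tm, bx_tm, h, tm_smul_right, map_smul]
  have e4 : (𝟙 (R.H.obj Q) : R.H.obj Q ⟶ R.H.obj Q).hom q = q := rfl
  rw [e4, assoc_inv_tm]

/-- The words of length `n + 1`. -/
def snocE (ι : Type*) (n : ℕ) : (Fin n → ι) × ι ≃ (Fin (n + 1) → ι) where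
  toFun p := Fin.snoc (α := fun _ => ι) p.1 p.2
  invFun w := (fun i => w i.castSucc, w (Fin.last n))
  left_inv p := by
    refine Prod.ext (funext fun i => ?_) ?_
    · exact Fin.snoc_castSucc (α := fun _ => ι) p.2 p.1 i
    · exact Fin.snoc_last (α := fun _ => ι) p.2 p.1
  right_inv w := by
    funext i
    refine Fin.lastCases ?_ (fun i => ?_) i
    · exact Fin.snoc_last (α := fun _ => ι) _ _
    · exact Fin.snoc_castSucc (α := fun _ => ι) _ _ i

variable {X : C} {ι : Type*} (f : Module.Basis ι K (R.H.obj X))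

/-- The linear isomorphism of the realisation of a tensor product. -/
noncomputable def muE (Q X : C) : (R.H.obj Q ⊗[K] R.H.obj X) ≃ₗ[K] R.H.obj (Q ⊗ X) :=
  (Functor.Monoidal.μIso R.H Q X).toLinearEquiv

lemma muE_apply (Q X : C) (q : R.H.obj Q) (x : R.H.obj X) :
    muE R Q X (q ⊗ₜ[K] x) = tm R q x := rfl

/-- The basis of the realisation of the tensor power. -/
noncomputable def wB : ∀ n : ℕ, Module.Basis (Fin n → ι) K (R.H.obj (tp X n))
  | 0 => (Module.Basis.singleton (Fin 0 → ι) K).map (Functor.Monoidal.εIso R.H).toLinearEquiv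
  | n + 1 => ((Module.Basis.tensorProduct (wB n) f).map (muE R (tp X n) X)).reindex (snocE ι n)

lemma wB_succ (n : ℕ) (w : Fin (n + 1) → ι) :
    wB R f (n + 1) w = tm R (wB R f n (fun i => w i.castSucc)) (f (w (Fin.last n))) := by
  have h1 : wB R f (n + 1) w = muE R (tp X n) X
      ((Module.Basis.tensorProduct (wB R f n) f) ((snocE ι n).symm w)) := by
    rw [wB, Module.Basis.reindex_apply, Module.Basis.map_apply]
  rw [h1, Module.Basis.tensorProduct_apply', muE_apply]
  rfl

/-- The exchange of two neighbouring factors permutes the basis up to signs. -/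
lemma exists_swap (h2 : (2 : K) ≠ 0)
    (hf : ∀ i, ∃ a : K, (a = 1 ∨ a = -1) ∧ (R.par X).hom (f i) = a • f i) (n : ℕ) (i : Fin n) :
    ∃ s : tp X (n + 1) ⟶ tp X (n + 1), IsSwap X (n + 1) s ∧ ∀ w : Fin (n + 1) → ι, ∃ a : K,
      (a = 1 ∨ a = -1) ∧ (R.H.map s).hom (wB R f (n + 1)
        (w ∘ Equiv.swap i.castSucc i.succ)) = a • wB R f (n + 1) w := by
  induction n with
  | zero => exact i.elim0
  | succ n ih =>
    refine Fin.lastCases ?_ (fun i => ?_) i
    · refine ⟨_, IsSwap.last n, fun w => ?_⟩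
      obtain ⟨a, ha, hxa⟩ := hf (w (Fin.last (n + 1)))
      obtain ⟨b, hb, hyb⟩ := hf (w (Fin.last n).castSucc)
      obtain ⟨s, hs, h⟩ := sw_tm R h2 (wB R f n (fun i => w i.castSucc.castSucc)) ha hb hxa hyb
      refine ⟨s, hs, ?_⟩
      rw [wB_succ, wB_succ, wB_succ R f (n + 1) w, wB_succ]
      have e1 : (w ∘ Equiv.swap (Fin.last n).castSucc (Fin.last n).succ) (Fin.last (n + 1)) =
          w (Fin.last n).castSucc := by
        rw [Function.comp_apply, ← Fin.succ_last, Equiv.swap_apply_right]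
      have e2 : (w ∘ Equiv.swap (Fin.last n).castSucc (Fin.last n).succ) (Fin.last n).castSucc =
          w (Fin.last (n + 1)) := by
        rw [Function.comp_apply, Equiv.swap_apply_left, Fin.succ_last]
      have e3 : (fun i : Fin n => (w ∘ Equiv.swap (Fin.last n).castSucc (Fin.last n).succ)
          i.castSucc.castSucc) = fun i => w i.castSucc.castSucc := by
        funext i
        rw [Function.comp_apply, Equiv.swap_apply_of_ne_of_ne]
        · intro h
          have := congrArg Fin.val h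
          simp at this
          omega
        · intro h
          have := congrArg Fin.val h
          simp at this
          omega
      rw [e1, e2, e3]
      exact h
    · obtain ⟨s, hs, h⟩ := ih i
      refine ⟨_, IsSwap.lift _ s hs, fun w => ?_⟩
      obtain ⟨a, ha, h'⟩ := h (fun i => w i.castSucc)
      refine ⟨a, ha, ?_⟩
      rw [map_whiskerRight_eq, wB_succ, bx_tm, wB_succ R f (n + 1) w]
      have e1 : (w ∘ Equiv.swap i.castSucc.castSucc i.castSucc.succ) (Fin.last (n + 1)) =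
          w (Fin.last (n + 1)) := by
        rw [Function.comp_apply, Equiv.swap_apply_of_ne_of_ne]
        · intro h
          have := congrArg Fin.val h
          simp at this
          omega
        · intro h
          have := congrArg Fin.val h
          simp at this
          omega
      have e2 : (fun j : Fin (n + 1) => (w ∘ Equiv.swap i.castSucc.castSucc i.castSucc.succ)
          j.castSucc) = (fun j => w j.castSucc) ∘ Equiv.swap i.castSucc i.succ := by
        funext j
        rw [Function.comp_apply, Function.comp_apply]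
        congr 1
        rw [Fin.succ_castSucc]
        exact (Fin.castSucc_injective (n + 1)).swap_apply _ _ _
      rw [e1, e2, h', tm_smul_left]
      rfl

end

end Pool.Agent.Q57.NL
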