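import Pool.Agent.Y112.SC.Main
import Pool.Agent.Q20.Cp.Cat

/-!
# Linear combinations of monomials over the coefficient field, and the descent of the sign
conjecture from an idempotent combination of permutations
-/

set_option autoImplicit false
set_option linter.unusedSectionVars false
set_option linter.unusedSimpArgs false
set_option backward.isDefEq.respectTransparency false
set_option backward.defeqAttrib.useBackward true

open CategoryTheory Limits MonoidalCategory
open Pool.Agent.Y112.SR Pool.Agent.Y112.KD Pool.Agent.Y112.SC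

namespace Pool.Agent.Q57.NL

universe v u w

open Functor.LaxMonoidal Functor.OplaxMonoidal

section

variable {C : Type u} [Category.{v} C] [Preadditive C] [MonoidalCategory C] [SymmetricCategory C]
  {K : Type w} [Field K] (R : SuperRealisation C K)

/-- Linear combinations of monomials over `K`. -/
inductive KC (X : C) (n : ℕ) : (R.H.obj (tp X n) ⟶ R.H.obj (tp X n)) → Prop
  | mon (x : R.H.obj (tp X n) ⟶ R.H.obj (tp X n)) : Mon R X n x → KC X n x
  | add (x y : R.H.obj (tp X n) ⟶ R.H.obj (tp X n)) : KC X n x → KC X n y → KC X n (x + y)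
  | smul (q : K) (x : R.H.obj (tp X n) ⟶ R.H.obj (tp X n)) : KC X n x → KC X n (q • x)

variable {R}

lemma KC.comp (h2 : (2 : K) ≠ 0) {X : C} {n : ℕ} {x y : R.H.obj (tp X n) ⟶ R.H.obj (tp X n)}
    (hx : KC R X n x) (hy : KC R X n y) : KC R X n (x ≫ y) := by
  induction hx with
  | mon x hx =>
    induction hy with
    | mon y hy => exact KC.mon _ (Mon.comp h2 n x y hx hy)
    | add y z _ _ h1 h2 => rw [Preadditive.comp_add]; exact KC.add _ _ h1 h2
    | smul q y _ h1 => rw [Linear.comp_smul]; exact KC.smul _ _ h1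
  | add y z _ _ h1 h2 => rw [Preadditive.add_comp]; exact KC.add _ _ h1 h2
  | smul q y _ h1 => rw [Linear.smul_comp]; exact KC.smul _ _ h1

/-- The shape of the combinations on one factor. -/
lemma KC.one_shape {X : C} {x : R.H.obj (tp X 1) ⟶ R.H.obj (tp X 1)}
    (hx : KC R X 1 x) : ∃ α β : K, x = α • 𝟙 _ + β • R.par (tp X 1) := by
  induction hx with
  | mon x hx =>
    cases hx with
    | one => exact ⟨1, 0, by simp⟩
    | box _ a b ha hb =>
      cases ha
      rcases hb with rfl | rfl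
      · exact ⟨1, 0, by rw [bx_one]; simp⟩
      · refine ⟨0, 1, ?_⟩
        have h : R.par (tp X 0) = 𝟙 _ := R.par_unit
        rw [← h, bx_par]
        simp
  | add y z _ _ h1 h2 =>
    obtain ⟨a, b, rfl⟩ := h1
    obtain ⟨a', b', rfl⟩ := h2
    exact ⟨a + a', b + b', by module⟩
  | smul q y _ h1 =>
    obtain ⟨a, b, rfl⟩ := h1
    exact ⟨q * a, q * b, by module⟩

end

section

variable {C : Type u} [Category.{v} C] [Preadditive C] [Linear ℚ C] [MonoidalCategory C]
  [MonoidalPreadditive C] [MonoidalLinear ℚ C] [SymmetricCategory C]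
  [RightRigidCategory C] {K : Type w} [Field K] {R : SuperRealisation C K}

/-- The partial trace of a combination of monomials. -/
lemma KC.PT {X : C} {n : ℕ} {x : R.H.obj (tp X (n + 1)) ⟶ R.H.obj (tp X (n + 1))}
    (hx : KC R X (n + 1) x) : KC R X n (PT R x) := by
  have hK := R_charZero R
  have h2 : (2 : K) ≠ 0 := two_ne_zero
  have hbox : ∀ (a : R.H.obj (tp X n) ⟶ R.H.obj (tp X n)) (b : R.H.obj X ⟶ R.H.obj X),
      Mon R X n a → Pb R b → KC R X n (Pool.Agent.Y112.SC.PT R (bx R a b)) := by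
    intro a b ha _
    rw [PT_bx R h2]
    exact KC.smul _ _ (KC.mon _ ha)
  induction hx with
  | mon x hx =>
    cases hx with
    | one =>
      have h := hbox (𝟙 _) (𝟙 _) (Mon.one n) (Pb.one R X)
      rwa [bx_one] at h
    | box _ a b ha hb' => exact hbox a b ha hb'
    | swp m a a' b ha ha' hb =>
      have e1 : bx R a b ≫ Sg R X m ≫ bx R a' (𝟙 _) =
          bx R a (𝟙 _) ≫ Sg R X m ≫ bx R (bx R (𝟙 _) b ≫ a') (𝟙 _) := by
        have e2 : bx R a b = bx R a (𝟙 _) ≫ bx R (𝟙 _) b := by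
          rw [bx_comp, Category.comp_id, Category.id_comp]
        have e3 : bx R (𝟙 _) b ≫ Sg R X m = Sg R X m ≫ bx R (bx R (𝟙 _) b) (𝟙 _) := by
          rw [← Sg_nat R h2 _ (Pb.one R X) hb, bx_one]
        have e4 : bx R (bx R (𝟙 _) b ≫ a') (𝟙 (R.H.obj X)) =
            bx R (bx R (𝟙 _) b) (𝟙 _) ≫ bx R a' (𝟙 _) := by
          rw [bx_comp, Category.comp_id]
        rw [e2, e4, Category.assoc, reassoc_of% e3]
      have e5 : Pool.Agent.Y112.SC.PT R (bx R a b ≫ Sg R X m ≫ bx R a' (𝟙 _)) = a ≫ bx R (𝟙 _) b ≫ a' := by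
        rw [e1, PT_comp]
        have e6 : Pool.Agent.Y112.SC.PT R (Sg R X m) = 𝟙 _ := PT_sw R _ _
        rw [e6, Category.id_comp]
      rw [e5]
      exact KC.mon _ (Mon.comp h2 _ _ _ ha (Mon.comp h2 _ _ _
        (Mon.box _ _ _ (Mon.one _) hb) ha'))
  | add y z _ _ h1 h2 => rw [PT_add]; exact KC.add _ _ h1 h2
  | smul q y _ h1 => rw [PT_smul]; exact KC.smul _ _ h1

lemma KC.PTn {X : C} (n : ℕ) {x : R.H.obj (tp X (n + 1)) ⟶ R.H.obj (tp X (n + 1))}
    (hx : KC R X (n + 1) x) : KC R X 1 (PTn R X n x) := by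
  induction n with
  | zero => exact hx
  | succ n ih => exact ih hx.PT

variable (R)

/-- The span of the realisations of the endomorphisms. -/
def LL (X : C) : Submodule K (R.H.obj X ⟶ R.H.obj X) :=
  Submodule.span K (Set.range fun f : X ⟶ X => R.H.map f)

variable {R}

lemma LL_comp {X : C} {x y : R.H.obj X ⟶ R.H.obj X} (hx : x ∈ LL R X) (hy : y ∈ LL R X) :
    x ≫ y ∈ LL R X := by
  rw [LL] at hx hy
  induction hx using Submodule.span_induction with
  | mem x hx =>
    obtain ⟨f, rfl⟩ := hx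
    induction hy using Submodule.span_induction with
    | mem y hy =>
      obtain ⟨g, rfl⟩ := hy
      exact Submodule.subset_span ⟨f ≫ g, R.H.map_comp f g⟩
    | zero => rw [comp_zero]; exact Submodule.zero_mem _
    | add a b _ _ ha hb => rw [Preadditive.comp_add]; exact Submodule.add_mem _ ha hb
    | smul c a _ ha => rw [Linear.comp_smul]; exact Submodule.smul_mem _ _ ha
  | zero => rw [zero_comp]; exact Submodule.zero_mem _
  | add a b _ _ ha hb => rw [Preadditive.add_comp]; exact Submodule.add_mem _ ha hb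
  | smul c a _ ha => rw [Linear.smul_comp]; exact Submodule.smul_mem _ _ ha

lemma LL_PT {Q X : C} {x : R.H.obj (Q ⊗ X) ⟶ R.H.obj (Q ⊗ X)} (hx : x ∈ LL R (Q ⊗ X)) :
    PT R x ∈ LL R Q := by
  rw [LL] at hx
  induction hx using Submodule.span_induction with
  | mem x hx =>
    obtain ⟨f, rfl⟩ := hx
    change PT R (R.H.map f) ∈ _
    rw [PT_map]
    exact Submodule.subset_span ⟨_, rfl⟩
  | zero =>
    have : PT R (0 : R.H.obj (Q ⊗ X) ⟶ R.H.obj (Q ⊗ X)) = 0 := by
      have := PT_smul R (0 : K) (0 : R.H.obj (Q ⊗ X) ⟶ R.H.obj (Q ⊗ X))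
      rwa [zero_smul, zero_smul] at this
    rw [this]
    exact Submodule.zero_mem _
  | add a b _ _ ha hb => rw [PT_add]; exact Submodule.add_mem _ ha hb
  | smul c a _ ha => rw [PT_smul]; exact Submodule.smul_mem _ _ ha

lemma LL_PTn {X : C} (n : ℕ) {x : R.H.obj (tp X (n + 1)) ⟶ R.H.obj (tp X (n + 1))}
    (hx : x ∈ LL R (tp X (n + 1))) : PTn R X n x ∈ LL R (tp X 1) := by
  induction n with
  | zero => exact hx
  | succ n ih => exact ih (LL_PT hx)

lemma LL_smul_par {X : C} {β : K} (hβ : β ≠ 0) {α : K} (h : α • 𝟙 _ + β • R.par X ∈ LL R X) :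
    R.par X ∈ LL R X := by
  have h1 : (𝟙 (R.H.obj X) : R.H.obj X ⟶ R.H.obj X) ∈ LL R X :=
    Submodule.subset_span ⟨𝟙 X, R.H.map_id X⟩
  have h2 := Submodule.smul_mem _ β⁻¹ (Submodule.sub_mem _ h (Submodule.smul_mem _ α h1))
  rwa [add_sub_cancel_left, smul_smul, inv_mul_cancel₀ hβ, one_smul] at h2

variable (R)

/-- The liftable combinations have traces of a special form if the conjecture fails. -/
lemma first_place {M : C} (hC : R.par (tp M 1) ∉ LL R (tp M 1)) (m : ℕ) (p q : ℕ)
    (hp : LinearMap.trace K (R.H.obj (tp M 1)) (𝟙 (R.H.obj (tp M 1)) :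
      R.H.obj (tp M 1) ⟶ R.H.obj (tp M 1)).hom = p + q)
    (hq : LinearMap.trace K (R.H.obj (tp M 1)) (R.par (tp M 1)).hom = p - q)
    (x : R.H.obj (tp M (m + 1)) ⟶ R.H.obj (tp M (m + 1))) (hx : KC R M (m + 1) x)
    (hy : x ∈ LL R (tp M (m + 1))) :
    ((p : K) - q) * LinearMap.trace K (R.H.obj (tp M (m + 1)))
      (up R M (R.par (tp M 1)) m ≫ x ≫ R.par (tp M (m + 1))).hom =
    ((p : K) + q) * LinearMap.trace K (R.H.obj (tp M (m + 1))) (x ≫ R.par (tp M (m + 1))).hom := by
  obtain ⟨α, β, hz⟩ := KC.one_shape (KC.PTn m hx)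
  have hz' := LL_PTn m hy
  have hβ : β = 0 := by
    by_contra hβ
    rw [hz] at hz'
    exact hC (LL_smul_par hβ hz')
  rw [hβ, zero_smul, add_zero] at hz
  have hup : up R M (𝟙 (R.H.obj (tp M 1))) m = 𝟙 _ := by
    have ih' : ∀ k, up R M (𝟙 (R.H.obj (tp M 1))) k = 𝟙 _ := by
      intro k
      induction k with
      | zero => rfl
      | succ k ihk =>
        change bx R (up R M (𝟙 (R.H.obj (tp M 1))) k) (𝟙 _) = _
        rw [ihk, bx_one]
    exact ih' m
  have t1 := trace_PTn R m (𝟙 (R.H.obj (tp M 1))) x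
  have t2 := trace_PTn R m (R.par (tp M 1)) x
  rw [hup, Category.id_comp, Category.id_comp, hz, Linear.smul_comp, Category.id_comp,
    ModuleCat.hom_smul, map_smul, hq, smul_eq_mul] at t1
  rw [hz, Linear.smul_comp, Category.id_comp, Linear.comp_smul, R.par_sq, ModuleCat.hom_smul,
    map_smul, hp, smul_eq_mul] at t2
  rw [← t1, ← t2]
  ring

lemma all_places {M : C} (hC : R.par (tp M 1) ∉ LL R (tp M 1)) (p q : ℕ)
    (hp : LinearMap.trace K (R.H.obj (tp M 1)) (𝟙 (R.H.obj (tp M 1)) :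
      R.H.obj (tp M 1) ⟶ R.H.obj (tp M 1)).hom = p + q)
    (hq : LinearMap.trace K (R.H.obj (tp M 1)) (R.par (tp M 1)).hom = p - q)
    {n : ℕ} {a : R.H.obj (tp M n) ⟶ R.H.obj (tp M n)} (ha : Reach R M n a) :
    ∀ (x : R.H.obj (tp M n) ⟶ R.H.obj (tp M n)), KC R M n x → x ∈ LL R (tp M n) →
    ((p : K) - q) * LinearMap.trace K (R.H.obj (tp M n)) (a ≫ x ≫ R.par (tp M n)).hom =
    ((p : K) + q) * LinearMap.trace K (R.H.obj (tp M n)) (x ≫ R.par (tp M n)).hom := by
  have hK := R_charZero R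
  induction ha with
  | first n => exact first_place R hC n p q hp hq
  | conj n a s hs _ ih =>
    intro x hx hy
    have hs2 : R.H.map s ≫ R.H.map s = 𝟙 _ := by
      rw [← Functor.map_comp, swap_sq hs, CategoryTheory.Functor.map_id]
    have hsm : KC R M n (R.H.map s) := KC.mon _ (Mon.swap hs)
    have hsl : R.H.map s ∈ LL R (tp M n) := Submodule.subset_span ⟨s, rfl⟩
    have h1 := ih (R.H.map s ≫ x ≫ R.H.map s)
      (KC.comp two_ne_zero hsm (KC.comp two_ne_zero hx hsm)) (LL_comp hsl (LL_comp hy hsl))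
    have hpar : R.H.map s ≫ R.par (tp M n) = R.par (tp M n) ≫ R.H.map s := R.par_natural s
    have e1 : LinearMap.trace K (R.H.obj (tp M n))
        (a ≫ (R.H.map s ≫ x ≫ R.H.map s) ≫ R.par (tp M n)).hom =
        LinearMap.trace K (R.H.obj (tp M n))
        ((R.H.map s ≫ a ≫ R.H.map s) ≫ x ≫ R.par (tp M n)).hom := by
      have f1 : a ≫ (R.H.map s ≫ x ≫ R.H.map s) ≫ R.par (tp M n) =
          (a ≫ R.H.map s ≫ x ≫ R.par (tp M n)) ≫ R.H.map s := by
        simp only [Category.assoc]
        rw [hpar]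
      rw [f1, trace_swap]
      simp only [Category.assoc]
    have e2 : LinearMap.trace K (R.H.obj (tp M n))
        ((R.H.map s ≫ x ≫ R.H.map s) ≫ R.par (tp M n)).hom =
        LinearMap.trace K (R.H.obj (tp M n)) (x ≫ R.par (tp M n)).hom := by
      have f1 : (R.H.map s ≫ x ≫ R.H.map s) ≫ R.par (tp M n) =
          (R.H.map s ≫ x ≫ R.par (tp M n)) ≫ R.H.map s := by
        simp only [Category.assoc]
        rw [hpar]
      rw [f1, trace_swap, ← Category.assoc, hs2, Category.id_comp]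
    rw [← e1, ← e2, h1]

/-- The algebra generated by the exchanges of neighbouring factors, with coefficients in `K`. -/
inductive AK (X : C) (n : ℕ) : (R.H.obj (tp X n) ⟶ R.H.obj (tp X n)) → Prop
  | one : AK X n (𝟙 _)
  | swap (s : tp X n ⟶ tp X n) (x : R.H.obj (tp X n) ⟶ R.H.obj (tp X n)) :
      IsSwap X n s → AK X n x → AK X n (R.H.map s ≫ x)
  | add (x y : R.H.obj (tp X n) ⟶ R.H.obj (tp X n)) : AK X n x → AK X n y → AK X n (x + y)
  | smul (q : K) (x : R.H.obj (tp X n) ⟶ R.H.obj (tp X n)) : AK X n x → AK X n (q • x)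

variable {R}

lemma AK.kc {X : C} {n : ℕ} {x : R.H.obj (tp X n) ⟶ R.H.obj (tp X n)} (hx : AK R X n x) :
    KC R X n x := by
  have hK := R_charZero R
  induction hx with
  | one => exact KC.mon _ (Mon.one n)
  | swap s x hs _ ih => exact KC.comp two_ne_zero (KC.mon _ (Mon.swap hs)) ih
  | add x y _ _ h1 h2 => exact KC.add _ _ h1 h2
  | smul q x _ h1 => exact KC.smul _ _ h1

lemma AK.ll {X : C} {n : ℕ} {x : R.H.obj (tp X n) ⟶ R.H.obj (tp X n)} (hx : AK R X n x) :
    x ∈ LL R (tp X n) := by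
  induction hx with
  | one => exact Submodule.subset_span ⟨𝟙 _, R.H.map_id _⟩
  | swap s x hs _ ih => exact LL_comp (Submodule.subset_span ⟨s, rfl⟩) ih
  | add x y _ _ h1 h2 => exact Submodule.add_mem _ h1 h2
  | smul q x _ h1 => exact Submodule.smul_mem _ _ h1

lemma AK.ee {X : C} {n : ℕ} {x : R.H.obj (tp X n) ⟶ R.H.obj (tp X n)} (hx : AK R X n x) (k : ℤ) :
    x ≫ EE R X n k = EE R X n k ≫ x := by
  have hK := R_charZero R
  induction hx with
  | one => rw [Category.id_comp, Category.comp_id]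
  | swap s x hs _ ih =>
    rw [Category.assoc, ih, ← Category.assoc, EE_swap R two_ne_zero hs k, Category.assoc]
  | add x y _ _ h1 h2 => rw [Preadditive.add_comp, Preadditive.comp_add, h1, h2]
  | smul q x _ h1 => rw [Linear.smul_comp, Linear.comp_smul, h1]

variable (R)

/-- **The descent of the sign conjecture from an idempotent combination of permutations, with
coefficients in `K`.** -/
theorem cplus_of_idem (hU : ∀ z : 𝟙_ C ⟶ 𝟙_ C, ∃ q : ℚ, z = q • 𝟙 (𝟙_ C)) {M : C} {n : ℕ}
    (hn : 1 ≤ n) {e : R.H.obj (tp M n) ⟶ R.H.obj (tp M n)} (he : AK R M n e) (hee : e ≫ e = e)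
    (he0 : e ≠ 0) (hlift : e ≫ R.par (tp M n) ∈ LL R (tp M n)) : R.CPlus M := by
  have hK := R_charZero R
  have h2 : (2 : K) ≠ 0 := two_ne_zero
  apply cplus_tp_one R
  have hspan : R.par (tp M 1) ∈ LL R (tp M 1) → R.CPlus (tp M 1) := by
    intro h
    refine Q20.Cp.cplus_of_span R hU _ ?_
    have h1 := Submodule.mem_map_of_mem
      (f := (ModuleCat.homLinearEquiv (S := K) (M := R.H.obj (tp M 1))
        (N := R.H.obj (tp M 1))).toLinearMap) h
    rw [LL, Submodule.map_span, ← Set.range_comp] at h1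
    exact h1
  apply hspan
  by_contra hC
  obtain ⟨p, q, hp, hq, hp0, hq0⟩ := exists_pq R hK (tp M 1)
  have hone : (𝟙 (R.H.obj (tp M 1)) : R.H.obj (tp M 1) ⟶ R.H.obj (tp M 1)) ∈ LL R (tp M 1) :=
    Submodule.subset_span ⟨𝟙 _, R.H.map_id _⟩
  -- the object is not pure
  have hp1 : p ≠ 0 := by
    intro h
    apply hC
    rw [hp0 h]
    exact Submodule.neg_mem _ hone
  have hq1 : q ≠ 0 := by
    intro h
    apply hC
    rw [hq0 h]
    exact hone
  have hRC : KC R M n (e ≫ R.par (tp M n)) := KC.comp h2 he.kc (KC.mon _ (Mon.par n))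
  have hxP : (e ≫ R.par (tp M n)) ≫ R.par (tp M n) = e := by
    rw [Category.assoc, R.par_sq, Category.comp_id]
  -- the trace of the number operator
  have key : ((p : K) - q) * LinearMap.trace K (R.H.obj (tp M n)) (NN R M n ≫ e).hom =
      (n : K) * (((p : K) + q) * LinearMap.trace K (R.H.obj (tp M n)) e.hom) := by
    let φ : (R.H.obj (tp M n) ⟶ R.H.obj (tp M n)) →+ K :=
      (AddMonoidHom.mulLeft ((p : K) - q)).comp (trF R e)
    have h1 := NN_val n φ (((p : K) + q) * LinearMap.trace K (R.H.obj (tp M n)) e.hom)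
      (fun a ha => by
        have h3 := all_places R hC p q hp hq ha _ hRC hlift
        rw [hxP] at h3
        exact h3)
    exact h1
  -- the ranks
  have hrk : ∀ k : ℕ, ∃ t : ℕ, LinearMap.trace K (R.H.obj (tp M n))
      (EE R M n (k : ℤ) ≫ e).hom = t := by
    intro k
    have h3 : (EE R M n (k : ℤ) ≫ e) ≫ (EE R M n (k : ℤ) ≫ e) = EE R M n (k : ℤ) ≫ e := by
      have f1 : (EE R M n (k : ℤ) ≫ e) ≫ (EE R M n (k : ℤ) ≫ e) =
          EE R M n (k : ℤ) ≫ (e ≫ EE R M n (k : ℤ)) ≫ e := by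
        simp only [Category.assoc]
      rw [f1, he.ee, Category.assoc, hee, ← Category.assoc, EE_idem R h2]
    obtain ⟨t, ht, -⟩ := exists_rk R _ h3 hK
    exact ⟨t, ht⟩
  choose ρ hρ using hrk
  have hsum : ∀ f : ℕ → K, LinearMap.trace K (R.H.obj (tp M n))
      ((∑ k ∈ Finset.range (n + 1), f k • EE R M n (k : ℤ)) ≫ e).hom =
      ∑ k ∈ Finset.range (n + 1), f k * ρ k := by
    intro f
    have h3 : LinearMap.trace K (R.H.obj (tp M n))
      ((∑ k ∈ Finset.range (n + 1), f k • EE R M n (k : ℤ)) ≫ e).hom =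
      trF R e (∑ k ∈ Finset.range (n + 1), f k • EE R M n (k : ℤ)) := rfl
    rw [h3, map_sum]
    refine Finset.sum_congr rfl fun k _ => ?_
    change LinearMap.trace K (R.H.obj (tp M n)) ((f k • EE R M n (k : ℤ)) ≫ e).hom = _
    rw [Linear.smul_comp, ModuleCat.hom_smul, map_smul, hρ, smul_eq_mul]
  have t1 : LinearMap.trace K (R.H.obj (tp M n)) e.hom =
      ∑ k ∈ Finset.range (n + 1), (ρ k : K) := by
    have h3 := hsum (fun _ => 1)
    simp only [one_smul, one_mul] at h3
    rwa [EE_one R h2, Category.id_comp] at h3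
  have t2 : LinearMap.trace K (R.H.obj (tp M n)) (NN R M n ≫ e).hom =
      ∑ k ∈ Finset.range (n + 1), ((n : K) - 2 * k) * ρ k := by
    rw [NN_eq R h2, hsum]
  rw [t1, t2] at key
  -- everything vanishes
  have hint : ∑ k ∈ Finset.range (n + 1), ((((n : ℤ) - k) * q + k * p) * ρ k : ℤ) = 0 := by
    have h3 : ((2 * ∑ k ∈ Finset.range (n + 1), ((((n : ℤ) - k) * q + k * p) * ρ k : ℤ) : ℤ) : K)
        = 0 := by
      have h4 : (n : K) * (((p : K) + q) * ∑ k ∈ Finset.range (n + 1), (ρ k : K)) -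
          ((p : K) - q) * ∑ k ∈ Finset.range (n + 1), ((n : K) - 2 * k) * ρ k = 0 := by
        rw [key, sub_self]
      rw [← h4]
      push_cast
      simp only [Finset.mul_sum, ← Finset.sum_sub_distrib]
      refine Finset.sum_congr rfl fun k _ => ?_
      ring
    have h5 : (2 * ∑ k ∈ Finset.range (n + 1), ((((n : ℤ) - k) * q + k * p) * ρ k : ℤ) : ℤ) = 0 := by
      exact_mod_cast h3
    omega
  have hzero : ∀ k ∈ Finset.range (n + 1), (ρ k : K) = 0 := by
    have hpos : ∀ k ∈ Finset.range (n + 1), (0 : ℤ) ≤ (((n : ℤ) - k) * q + k * p) * ρ k := by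
      intro k hk
      have hk' : (k : ℤ) ≤ n := by
        have := Finset.mem_range.mp hk
        omega
      have h3 : (0 : ℤ) ≤ (n : ℤ) - k := by omega
      positivity
    intro k hk
    have h3 := (Finset.sum_eq_zero_iff_of_nonneg hpos).mp hint k hk
    have hk' : (k : ℤ) ≤ n := by
      have := Finset.mem_range.mp hk
      omega
    have h4 : (0 : ℤ) < ((n : ℤ) - k) * q + k * p := by
      have hq2 : (0 : ℤ) < q := by omega
      have hp2 : (0 : ℤ) < p := by omega
      rcases Nat.eq_zero_or_pos k with hk0 | hk0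
      · subst hk0
        have hn' : (0 : ℤ) < n := by omega
        simp only [Nat.cast_zero, sub_zero, zero_mul, add_zero]
        positivity
      · have h5 : (0 : ℤ) ≤ (n : ℤ) - k := by omega
        have h6 : (0 : ℤ) < k := by omega
        positivity
    have h5 : (ρ k : ℤ) = 0 := by
      rcases mul_eq_zero.mp h3 with h6 | h6
      · omega
      · exact h6
    have h6 : ρ k = 0 := by exact_mod_cast h5
    rw [h6, Nat.cast_zero]
  -- the contradiction
  have t3 : LinearMap.trace K (R.H.obj (tp M n)) e.hom = 0 := by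
    rw [t1]
    exact Finset.sum_eq_zero hzero
  have hf2 := R.finite (tp M n)
  apply he0
  apply ModuleCat.hom_ext
  have he' : IsIdempotentElem e.hom := congrArg ModuleCat.Hom.hom hee
  exact (LinearMap.IsIdempotentElem.trace_eq_zero_iff he').mp t3

end

end Pool.Agent.Q57.NL
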