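import Pool.Agent.Q57.NL.Bas
import Pool.Agent.Q57.ND.Lin
import Pool.Agent.Q20.Cp.Stmt

/-!
# The rank distance of the even projector on tensor powers
-/

set_option autoImplicit false
set_option linter.unusedSectionVars false
set_option linter.unusedSimpArgs false
set_option backward.isDefEq.respectTransparency false
set_option backward.defeqAttrib.useBackward true

open CategoryTheory Limits MonoidalCategory Module
open Pool.Agent.Y112.SR Pool.Agent.Y112.KD Pool.Agent.Y112.SC
open Q20.Cp (KAlg numDim NumTriv ctr gr op)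

namespace Pool.Agent.Q57.NL

universe v u w

section Lin

variable {K V : Type*} [Field K] [AddCommGroup V] [Module K V] [FiniteDimensional K V]

/-- An involution has a basis of eigenvectors. -/
lemma exists_sign_basis (h2 : (2 : K) ≠ 0) (g : Module.End K V) (hg : g * g = 1) :
    ∃ (ι : Type) (_ : Fintype ι) (_ : DecidableEq ι) (f : Basis ι K V),
      ∀ i, ∃ a : K, (a = 1 ∨ a = -1) ∧ g (f i) = a • f i := by
  have hgg : ∀ x, g (g x) = x := fun x => LinearMap.congr_fun hg x
  let E := LinearMap.ker (g - 1)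
  let O := LinearMap.ker (g + 1)
  have hE : ∀ x, x ∈ E ↔ g x = x := by
    intro x
    change (g - 1) x = 0 ↔ _
    rw [LinearMap.sub_apply, Module.End.one_apply, sub_eq_zero]
  have hO : ∀ x, x ∈ O ↔ g x = -x := by
    intro x
    change (g + 1) x = 0 ↔ _
    rw [LinearMap.add_apply, Module.End.one_apply, add_eq_zero_iff_eq_neg]
  have hc : IsCompl E O := by
    constructor
    · rw [Submodule.disjoint_def]
      intro x h1 h3
      rw [hE] at h1
      rw [hO, h1] at h3
      have h4 : (2 : K) • x = 0 := by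
        rw [two_smul]
        exact add_eq_zero_iff_eq_neg.2 h3
      exact (smul_eq_zero.1 h4).resolve_left h2
    · rw [codisjoint_iff, eq_top_iff]
      intro x _
      have h5 : x = (2 : K)⁻¹ • (x + g x) + (2 : K)⁻¹ • (x - g x) := by
        rw [← smul_add]
        have : x + g x + (x - g x) = (2 : K) • x := by rw [two_smul]; abel
        rw [this, smul_smul, inv_mul_cancel₀ h2, one_smul]
      rw [h5]
      refine Submodule.add_mem_sup (Submodule.smul_mem _ _ ?_) (Submodule.smul_mem _ _ ?_)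
      · rw [hE, map_add, hgg, add_comm]
      · rw [hO, map_sub, hgg, neg_sub]
  let b := ((Module.finBasis K E).prod (Module.finBasis K O)).map
    (Submodule.prodEquivOfIsCompl E O hc)
  refine ⟨_, inferInstance, inferInstance, b, ?_⟩
  rintro (i | i)
  · refine ⟨1, Or.inl rfl, ?_⟩
    have h : b (Sum.inl i) = ((Module.finBasis K E) i : V) := by
      simp [b]
    rw [h, one_smul]
    exact (hE _).1 ((Module.finBasis K E) i).2
  · refine ⟨-1, Or.inr rfl, ?_⟩
    have h : b (Sum.inr i) = ((Module.finBasis K O) i : V) := by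
      simp [b]
    rw [h, neg_one_smul]
    exact (hO _).1 ((Module.finBasis K O) i).2

end Lin

section

variable {C : Type u} [Category.{v} C] [Preadditive C] [Linear ℚ C] [MonoidalCategory C]
  [MonoidalPreadditive C] [MonoidalLinear ℚ C] [SymmetricCategory C]
  [RightRigidCategory C] {K : Type w} [Field K] (R : SuperRealisation C K)

variable {R}

lemma AK.comp {X : C} {n : ℕ} {x y : R.H.obj (tp X n) ⟶ R.H.obj (tp X n)} (hx : AK R X n x)
    (hy : AK R X n y) : AK R X n (x ≫ y) := by
  induction hx with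
  | one => rwa [Category.id_comp]
  | swap s x hs _ ih => rw [Category.assoc]; exact AK.swap s _ hs ih
  | add a b _ _ h1 h2 => rw [Preadditive.add_comp]; exact AK.add _ _ h1 h2
  | smul q a _ h1 => rw [Linear.smul_comp]; exact AK.smul _ _ h1

variable (R)

/-- The exchanges of neighbouring factors. -/
def gens {X : C} {ι : Type*} (f : Basis ι K (R.H.obj X)) (n : ℕ) :
    Set (Module.End K (R.H.obj (tp X n)))ˣ :=
  {u | (∃ s : tp X n ⟶ tp X n, IsSwap X n s ∧ (u : Module.End K (R.H.obj (tp X n))) =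
      (R.H.map s).hom) ∧
    ∀ w, (u : Module.End K (R.H.obj (tp X n))) (wB R f n w) ∈ sgnSet (wB R f n)}

variable {R}

lemma gens_sq {X : C} {ι : Type*} {f : Basis ι K (R.H.obj X)} {n : ℕ}
    {u : (Module.End K (R.H.obj (tp X n)))ˣ} (hu : u ∈ gens R f n) : u * u = 1 := by
  obtain ⟨⟨s, hs, h⟩, -⟩ := hu
  apply Units.ext
  rw [Units.val_mul, h, Units.val_one]
  have h1 : R.H.map s ≫ R.H.map s = 𝟙 _ := by
    rw [← Functor.map_comp, swap_sq hs, CategoryTheory.Functor.map_id]
  exact congrArg ModuleCat.Hom.hom h1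

lemma neg_mem_sgnSet {β V : Type*} [AddCommGroup V] [Module K V] {e : Basis β K V}
    {x : V} (hx : x ∈ sgnSet e) : -x ∈ sgnSet e := by
  obtain ⟨b, h | h⟩ := hx
  · exact ⟨b, Or.inr (by rw [h])⟩
  · exact ⟨b, Or.inl (by rw [h, neg_neg])⟩

lemma gens_le {X : C} {ι : Type*} [Finite ι] {f : Basis ι K (R.H.obj X)} {n : ℕ} :
    Subgroup.closure (gens R f n) ≤ monGrp (wB R f n) := by
  rw [Subgroup.closure_le]
  intro u hu
  have h1 : ∀ x, x ∈ sgnSet (wB R f n) →
      (u : Module.End K (R.H.obj (tp X n))) x ∈ sgnSet (wB R f n) := by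
    rintro _ ⟨w, rfl | rfl⟩
    · exact hu.2 w
    · rw [map_neg]
      exact neg_mem_sgnSet (hu.2 w)
  intro x
  refine ⟨h1 x, fun h => ?_⟩
  have h2 := h1 _ h
  have h3 : (u : Module.End K (R.H.obj (tp X n))) ((u : Module.End K (R.H.obj (tp X n))) x) = x :=
    congrArg (fun v : (Module.End K (R.H.obj (tp X n)))ˣ =>
      (v : Module.End K (R.H.obj (tp X n))) x) (gens_sq hu)
  rwa [h3] at h2

instance finite_closure {X : C} {ι : Type*} [Finite ι] {f : Basis ι K (R.H.obj X)} {n : ℕ} :
    Finite (Subgroup.closure (gens R f n)) :=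
  Finite.of_injective (Subgroup.inclusion gens_le) (Subgroup.inclusion_injective _)

variable (R)

/-- The representation of the group generated by the exchanges. -/
def rep {X : C} {ι : Type*} (f : Basis ι K (R.H.obj X)) (n : ℕ) :
    Subgroup.closure (gens R f n) →* Module.End K (R.H.obj (tp X n)) :=
  (Units.coeHom _).comp (Subgroup.subtype _)

variable {R}

lemma rep_ak {X : C} {ι : Type*} {f : Basis ι K (R.H.obj X)} {n : ℕ}
    (g : Subgroup.closure (gens R f n)) : AK R X n (ModuleCat.ofHom (rep R f n g)) := by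
  obtain ⟨g, hg⟩ := g
  change AK R X n (ModuleCat.ofHom (g : Module.End K (R.H.obj (tp X n))))
  suffices h : AK R X n (ModuleCat.ofHom (g : Module.End K (R.H.obj (tp X n)))) ∧
      AK R X n (ModuleCat.ofHom ((g⁻¹ : (Module.End K (R.H.obj (tp X n)))ˣ) :
        Module.End K (R.H.obj (tp X n)))) from h.1
  induction hg using Subgroup.closure_induction with
  | mem g hg =>
    have h1 : AK R X n (ModuleCat.ofHom (g : Module.End K (R.H.obj (tp X n)))) := by
      obtain ⟨⟨s, hs, h⟩, -⟩ := hg
      rw [h]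
      have := AK.swap (R := R) s _ hs AK.one
      rwa [Category.comp_id] at this
    refine ⟨h1, ?_⟩
    have h2 : g⁻¹ = g := inv_eq_of_mul_eq_one_left (gens_sq hg)
    rwa [h2]
  | one => exact ⟨AK.one, by rw [inv_one]; exact AK.one⟩
  | mul x y _ _ hx hy =>
    refine ⟨?_, ?_⟩
    · exact AK.comp hy.1 hx.1
    · rw [mul_inv_rev]
      exact AK.comp hx.2 hy.2
  | inv x _ hx => exact ⟨hx.2, by rw [inv_inv]; exact hx.1⟩

lemma span_ak {X : C} {ι : Type*} {f : Basis ι K (R.H.obj X)} {n : ℕ}
    {x : Module.End K (R.H.obj (tp X n))} (h1 : x ∈ Submodule.span K (Set.range (rep R f n))) :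
    AK R X n (ModuleCat.ofHom x) := by
  induction h1 using Submodule.span_induction with
  | mem x hx' =>
    obtain ⟨g, rfl⟩ := hx'
    exact rep_ak g
  | zero =>
    have := AK.smul (R := R) (X := X) (n := n) 0 _ AK.one
    rw [zero_smul] at this
    exact this
  | add x y _ _ hx' hy' => exact AK.add _ _ hx' hy'
  | smul c x _ hx' => exact AK.smul c _ hx'

/-- Every permutation of the factors is realised by an element of the group. -/
lemma exists_perm (h2 : (2 : K) ≠ 0) {X : C} {ι : Type*} {f : Basis ι K (R.H.obj X)}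
    (hf : ∀ i, ∃ a : K, (a = 1 ∨ a = -1) ∧ (R.par X).hom (f i) = a • f i) (n : ℕ)
    (σ : Equiv.Perm (Fin n)) : ∃ g : Subgroup.closure (gens R f n), ∀ w, ∃ s : K, s ≠ 0 ∧
      rep R f n g (wB R f n (w ∘ σ)) = s • wB R f n w := by
  have hone : ∃ g : Subgroup.closure (gens R f n), ∀ w, ∃ s : K, s ≠ 0 ∧
      rep R f n g (wB R f n (w ∘ (1 : Equiv.Perm (Fin n)))) = s • wB R f n w := by
    refine ⟨1, fun w => ⟨1, one_ne_zero, ?_⟩⟩
    rw [map_one, one_smul]
    rfl
  cases n with
  | zero =>
    have : σ = 1 := Subsingleton.elim _ _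
    rw [this]
    exact hone
  | succ n =>
    have h : σ ∈ Submonoid.closure (Set.range fun i : Fin n =>
        Equiv.swap i.castSucc i.succ) := by
      rw [Equiv.Perm.mclosure_swap_castSucc_succ]
      trivial
    induction h using Submonoid.closure_induction with
    | mem σ hσ =>
      obtain ⟨i, rfl⟩ := hσ
      obtain ⟨s, hs, h⟩ := exists_swap R f h2 hf n i
      have h1 : (R.H.map s).hom * (R.H.map s).hom = 1 := by
        have h1 : R.H.map s ≫ R.H.map s = 𝟙 _ := by
          rw [← Functor.map_comp, swap_sq hs, CategoryTheory.Functor.map_id]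
        exact congrArg ModuleCat.Hom.hom h1
      let u : (Module.End K (R.H.obj (tp X (n + 1))))ˣ :=
        ⟨(R.H.map s).hom, (R.H.map s).hom, h1, h1⟩
      have hu : u ∈ gens R f (n + 1) := by
        refine ⟨⟨s, hs, rfl⟩, fun w => ?_⟩
        obtain ⟨a, ha, h3⟩ := h (w ∘ Equiv.swap i.castSucc i.succ)
        have h4 : (w ∘ Equiv.swap i.castSucc i.succ) ∘ Equiv.swap i.castSucc i.succ = w := by
          funext j
          simp
        rw [h4] at h3
        refine ⟨w ∘ Equiv.swap i.castSucc i.succ, ?_⟩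
        rcases ha with rfl | rfl
        · exact Or.inl (h3.trans (one_smul _ _))
        · exact Or.inr (h3.trans (neg_one_smul _ _))
      refine ⟨⟨u, Subgroup.subset_closure hu⟩, fun w => ?_⟩
      obtain ⟨a, ha, h3⟩ := h w
      refine ⟨a, ?_, h3⟩
      rcases ha with rfl | rfl
      · exact one_ne_zero
      · exact neg_ne_zero.2 one_ne_zero
    | one => exact hone
    | mul σ τ _ _ hσ hτ =>
      obtain ⟨g, hg⟩ := hσ
      obtain ⟨g', hg'⟩ := hτ
      refine ⟨g * g', fun w => ?_⟩
      obtain ⟨s, hs, h3⟩ := hg w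
      obtain ⟨s', hs', h4⟩ := hg' (w ∘ σ)
      refine ⟨s' * s, mul_ne_zero hs' hs, ?_⟩
      have h5 : w ∘ (σ * τ : Equiv.Perm (Fin (n + 1))) = (w ∘ σ) ∘ τ := rfl
      rw [map_mul, Module.End.mul_apply, h5, h4, map_smul, h3, smul_smul]

variable (R)

/-- The smallest rank of a difference of the projector onto the even part of the realisation of `M`
and an operator in the span of the realisations of the endomorphisms of `M`. -/
noncomputable def rankDist (M : C) : ℕ :=
  sInf {r | ∃ u ∈ KAlg R M, finrank K (LinearMap.range (pe R M - u).hom) = r}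

lemma finrank_tp (M : C) (n : ℕ) :
    finrank K (R.H.obj (tp M n)) = finrank K (R.H.obj M) ^ n := by
  have h0 := R.finite M
  have h2 : (2 : K) ≠ 0 := by
    have := R_charZero R
    exact two_ne_zero
  obtain ⟨ι, _, _, f, -⟩ := exists_sign_basis h2 (gr R M) (Q20.Cp.gr_sq R M)
  rw [finrank_eq_card_basis (wB R f n), finrank_eq_card_basis f, Fintype.card_fun,
    Fintype.card_fin]

lemma rankDist_le {M : C} {u : R.H.obj M ⟶ R.H.obj M} (hu : u ∈ KAlg R M) :
    rankDist R M ≤ finrank K (LinearMap.range (pe R M - u).hom) :=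
  Nat.sInf_le ⟨u, hu, rfl⟩

lemma rankDist_spec (M : C) : ∃ u ∈ KAlg R M,
    finrank K (LinearMap.range (pe R M - u).hom) = rankDist R M :=
  Nat.sInf_mem (s := {r | ∃ u ∈ KAlg R M, finrank K (LinearMap.range (pe R M - u).hom) = r})
    ⟨_, 0, Submodule.zero_mem _, rfl⟩

lemma cplus_of_ll (hU : ∀ z : 𝟙_ C ⟶ 𝟙_ C, ∃ q : ℚ, z = q • 𝟙 (𝟙_ C)) {M : C}
    (h : R.par M ∈ LL R M) : R.CPlus M := by
  refine Q20.Cp.cplus_of_span R hU _ ?_
  have h1 := Submodule.mem_map_of_mem
    (f := (ModuleCat.homLinearEquiv (S := K) (M := R.H.obj M)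
      (N := R.H.obj M)).toLinearMap) h
  rw [LL, Submodule.map_span, ← Set.range_comp] at h1
  exact h1

lemma one_mem_ll (M : C) : (𝟙 _ : R.H.obj M ⟶ R.H.obj M) ∈ LL R M :=
  Submodule.subset_span ⟨𝟙 _, R.H.map_id _⟩

/-- **The law.** -/
theorem rank_law (hU : ∀ z : 𝟙_ C ⟶ 𝟙_ C, ∃ q : ℚ, z = q • 𝟙 (𝟙_ C)) {M : C}
    (hM : ¬ R.CPlus M) {n : ℕ} (hn : 1 ≤ n) :
    finrank K (R.H.obj M) ^ n ≤ (n + 1) ^ (finrank K (R.H.obj M) ^ 2) * rankDist R (tp M n) := by
  have hK := R_charZero R
  have h2 : (2 : K) ≠ 0 := two_ne_zero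
  have h0 := R.finite M
  have h0' := R.finite (tp M n)
  obtain ⟨ι, _, _, f, hf⟩ := exists_sign_basis h2 (gr R M) (Q20.Cp.gr_sq R M)
  have hcard : Fintype.card ι = finrank K (R.H.obj M) := (finrank_eq_card_basis f).symm
  by_contra hlt
  push Not at hlt
  obtain ⟨u, hu, hr⟩ := rankDist_spec R (tp M n)
  have h3 := span_grp (wB R f n) (rep R f n) (exists_perm h2 hf n)
  rw [finrank_tp, hcard, ← pow_mul] at h3
  obtain ⟨e, he, hee, he0, heT⟩ := exists_idem_small (rep R f n) (pe R (tp M n) - u).hom (by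
    rw [hr, finrank_tp]
    by_contra hcon
    push Not at hcon
    have h6 : finrank K (R.H.obj M) ^ (n * 2) ≤
        (rankDist R (tp M n) * finrank K (R.H.obj M) ^ n) *
          (n + 1) ^ (finrank K (R.H.obj M) ^ 2) := h3.trans (Nat.mul_le_mul_right _ hcon)
    have hpos : 0 < finrank K (R.H.obj M) ^ n := lt_of_le_of_lt (Nat.zero_le _) hlt
    have h7 : (rankDist R (tp M n) * finrank K (R.H.obj M) ^ n) *
          (n + 1) ^ (finrank K (R.H.obj M) ^ 2) < finrank K (R.H.obj M) ^ (n * 2) := by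
      calc (rankDist R (tp M n) * finrank K (R.H.obj M) ^ n) *
          (n + 1) ^ (finrank K (R.H.obj M) ^ 2)
          = ((n + 1) ^ (finrank K (R.H.obj M) ^ 2) * rankDist R (tp M n)) *
            finrank K (R.H.obj M) ^ n := by ring
        _ < finrank K (R.H.obj M) ^ n * finrank K (R.H.obj M) ^ n :=
            Nat.mul_lt_mul_of_pos_right hlt hpos
        _ = _ := by rw [mul_comm n 2, two_mul, pow_add]
    exact absurd h6 (not_le.2 h7))
  apply hM
  have hak := span_ak (gAlg_le _ he)
  refine cplus_of_idem R hU hn hak ?_ ?_ ?_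
  · exact congrArg ModuleCat.ofHom hee
  · intro h
    apply he0
    exact congrArg ModuleCat.Hom.hom h
  · have h4 : (pe R (tp M n) - u) ≫ ModuleCat.ofHom e = 0 := ModuleCat.hom_ext heT
    have h5 : ∀ x : R.H.obj (tp M n) ⟶ R.H.obj (tp M n), x ∈ LL R (tp M n) →
        R.par (tp M n) ≫ x = x ≫ R.par (tp M n) := by
      intro x hx
      rw [LL] at hx
      induction hx using Submodule.span_induction with
      | mem x hx =>
        obtain ⟨g, rfl⟩ := hx
        exact (R.par_natural g).symm
      | zero => rw [comp_zero, zero_comp]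
      | add a b _ _ ha hb => rw [Preadditive.comp_add, Preadditive.add_comp, ha, hb]
      | smul c a _ ha => rw [Linear.comp_smul, Linear.smul_comp, ha]
    rw [Preadditive.sub_comp, sub_eq_zero, pe, Linear.smul_comp, Preadditive.add_comp,
      Category.id_comp, h5 _ hak.ll] at h4
    have h6 : ModuleCat.ofHom e ≫ R.par (tp M n) =
        (2 : K) • (u ≫ ModuleCat.ofHom e) - ModuleCat.ofHom e := by
      rw [← h4, smul_smul, mul_inv_cancel₀ h2, one_smul, add_sub_cancel_left]
    rw [h6]
    exact Submodule.sub_mem _ (Submodule.smul_mem _ _ (LL_comp hu hak.ll)) hak.ll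

lemma rankDist_eq_zero (hU : ∀ z : 𝟙_ C ⟶ 𝟙_ C, ∃ q : ℚ, z = q • 𝟙 (𝟙_ C)) (M : C) :
    rankDist R M = 0 ↔ R.CPlus M := by
  have hK := R_charZero R
  have h2 : (2 : K) ≠ 0 := two_ne_zero
  have h0 := R.finite M
  constructor
  · intro h
    obtain ⟨u, hu, hr⟩ := rankDist_spec R M
    rw [h, Submodule.finrank_eq_zero] at hr
    have h1 : pe R M - u = 0 := ModuleCat.hom_ext (LinearMap.range_eq_bot.1 hr)
    rw [sub_eq_zero, pe] at h1
    apply cplus_of_ll R hU
    have h3 : R.par M = (2 : K) • u - 𝟙 _ := by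
      rw [← h1, smul_smul, mul_inv_cancel₀ h2, one_smul, add_sub_cancel_left]
    rw [h3]
    exact Submodule.sub_mem _ (Submodule.smul_mem _ _ hu) (one_mem_ll R M)
  · rintro ⟨f, hf⟩
    have h1 : pe R M = R.H.map f := by
      rw [pe, ← hf, smul_smul, inv_mul_cancel₀ h2, one_smul]
    have h3 := rankDist_le R (M := M) (u := R.H.map f) (Submodule.subset_span ⟨f, rfl⟩)
    rw [h1, sub_self] at h3
    have h4 : LinearMap.range (0 : R.H.obj M ⟶ R.H.obj M).hom = ⊥ := LinearMap.range_zero
    rw [h4, finrank_bot] at h3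
    omega

end

end Pool.Agent.Q57.NL
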