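import Pool.Agent.Q57.NL.Law

/-!
# The numerical dimension of tensor powers
-/

set_option autoImplicit false
set_option linter.unusedSectionVars false
set_option backward.isDefEq.respectTransparency false
set_option backward.defeqAttrib.useBackward true

open CategoryTheory Limits MonoidalCategory Module Polynomial
open Pool.Agent.Y112.SR Pool.Agent.Y112.KD Pool.Agent.Y112.SC
open Q20.Cp (KAlg numDim NumTriv ctr gr op gr_sq op_comm isAlg op_mem str_of_ctr str_numTriv)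

namespace Pool.Agent.Q57.NL

universe v u w

section

variable {C : Type u} [Category.{v} C] [Preadditive C] [Linear ℚ C] [MonoidalCategory C]
  [MonoidalPreadditive C] [MonoidalLinear ℚ C] [SymmetricCategory C]
  [RightRigidCategory C] {K : Type w} [Field K] (R : SuperRealisation C K)

/-- The superdimension of the realisation of `M`: the dimension of the even part minus the dimension
of the odd part. -/
noncomputable def superDim (M : C) : ℤ :=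
  2 * (finrank K (LinearMap.range (pe R M).hom) : ℤ) - Q20.Cp.dimH R M

lemma mem_kalg {M : C} {x : Module.End K (R.H.obj M)}
    (hx : x ∈ Submodule.span K (Set.range fun f : M ⟶ M => op R f)) :
    ModuleCat.ofHom x ∈ KAlg R M := by
  have h1 := Submodule.mem_map_of_mem
    (f := (ModuleCat.homLinearEquiv (S := K) (M := R.H.obj M)
      (N := R.H.obj M)).symm.toLinearMap) hx
  rw [Submodule.map_span, ← Set.range_comp] at h1
  exact h1

/-- The bound for one endomorphism. -/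
lemma ctr_le' (hunit : ∀ z : 𝟙_ C ⟶ 𝟙_ C, ∃ q : ℚ, z = q • 𝟙 (𝟙_ C)) {M : C} {x : M ⟶ M}
    (hx : NumTriv (x ≫ x - 𝟙 M)) {q : ℚ} (hq : ctr x = q • 𝟙 (𝟙_ C)) :
    ∃ n : ℕ, q + 2 * n = Q20.Cp.dimH R M ∧ rankDist R M ≤ n := by
  have := R_charZero R
  have := R.finite M
  have h0 : ∀ p : K[X], LinearMap.trace K (R.H.obj M) (gr R M *
      ((op R x * op R x - 1) * aeval (op R x) p)) = 0 := by
    intro p
    have h1 : op R (x ≫ x - 𝟙 M) = op R x * op R x - 1 := by rw [Q20.Cp.op_sub, Q20.Cp.op_comp, Q20.Cp.op_id]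
    rw [← h1]
    exact str_numTriv R hx (Q20.Cp.span_aeval (isAlg R hunit M) (op_mem R M x) p)
  obtain ⟨n, hn, p, hp⟩ := Pool.Agent.Q57.ND.str_rank (gr_sq R M) (op_comm R x) h0
  refine ⟨n, ?_, ?_⟩
  · rw [str_of_ctr R hq] at hn
    have h2 : ((q + 2 * n : ℚ) : K) = ((Q20.Cp.dimH R M : ℚ) : K) := by
      push_cast
      exact hn
    exact_mod_cast h2
  · refine le_trans (rankDist_le R (u := ModuleCat.ofHom (aeval (op R x) p))
      (mem_kalg R (Q20.Cp.span_aeval (isAlg R hunit M) (op_mem R M x) p))) hp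

lemma trace_gr [CharZero K] (M : C) :
    LinearMap.trace K (R.H.obj M) (gr R M) = (superDim R M : K) := by
  have := R.finite M
  have h2 : (2 : K) ≠ 0 := two_ne_zero
  have h1 : (pe R M).hom * (pe R M).hom = (pe R M).hom := congrArg ModuleCat.Hom.hom (pe_pe R h2 M)
  have h3 := Pool.Agent.Q57.ND.rank_of_trace h1
  have h4 : gr R M = (2 : K) • (pe R M).hom - 1 := by
    have h5 : R.par M = (2 : K) • pe R M - 𝟙 _ := by
      rw [pe, smul_smul, mul_inv_cancel₀ h2, one_smul, add_sub_cancel_left]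
    exact congrArg ModuleCat.Hom.hom h5
  rw [h4, map_sub, map_smul, h3, LinearMap.trace_one, superDim, Q20.Cp.dimH, smul_eq_mul]
  push_cast
  rfl

lemma ctr_scalar (hunit : ∀ z : 𝟙_ C ⟶ 𝟙_ C, ∃ q : ℚ, z = q • 𝟙 (𝟙_ C)) (M : C) (c : ℚ)
    (hc : c * c = 1) : NumTriv ((c • 𝟙 M) ≫ (c • 𝟙 M) - 𝟙 M) ∧
      ctr (c • 𝟙 M) = ((c * superDim R M : ℚ)) • 𝟙 (𝟙_ C) := by
  have := R_charZero R
  have := R.finite M
  constructor
  · intro g
    obtain ⟨q, hq⟩ := hunit (ctr (((c • 𝟙 M) ≫ (c • 𝟙 M) - 𝟙 M) ≫ g))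
    have h1 := str_of_ctr R hq
    have h3 : ((c • 𝟙 M) ≫ (c • 𝟙 M) - 𝟙 M) = 0 := by
      rw [Linear.smul_comp, Linear.comp_smul, Category.comp_id, smul_smul, hc, one_smul, sub_self]
    have h4 : op R (((c • 𝟙 M) ≫ (c • 𝟙 M) - 𝟙 M) ≫ g) = 0 := by
      rw [Q20.Cp.op_comp, h3]
      have h5 : op R (0 : M ⟶ M) = 0 := by
        have h6 := Q20.Cp.op_sub R (𝟙 M) (𝟙 M)
        rwa [sub_self, sub_self] at h6
      rw [h5, mul_zero]
    rw [h4, mul_zero, map_zero] at h1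
    have h2 : q = 0 := by exact_mod_cast h1.symm
    rw [hq, h2, zero_smul]
  · obtain ⟨q, hq⟩ := hunit (ctr (c • 𝟙 M))
    have h1 := str_of_ctr R hq
    rw [Q20.Cp.op_smul, Q20.Cp.op_id, mul_smul_comm, mul_one, map_smul, trace_gr, smul_eq_mul] at h1
    have h2 : q = c * superDim R M := by exact_mod_cast h1.symm
    rw [hq, h2]

include R in
lemma numSet_bdd (hunit : ∀ z : 𝟙_ C ⟶ 𝟙_ C, ∃ q : ℚ, z = q • 𝟙 (𝟙_ C)) (M : C) :
    BddAbove {n : ℕ | ∃ x : M ⟶ M, NumTriv (x ≫ x - 𝟙 M) ∧ ctr x = (n : ℚ) • 𝟙 (𝟙_ C)} := by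
  refine ⟨Q20.Cp.dimH R M, ?_⟩
  rintro n ⟨x, hx, hn⟩
  obtain ⟨m, hm, -⟩ := ctr_le' R hunit hx hn
  have : n + 2 * m = Q20.Cp.dimH R M := by exact_mod_cast hm
  omega

lemma natAbs_mem (hunit : ∀ z : 𝟙_ C ⟶ 𝟙_ C, ∃ q : ℚ, z = q • 𝟙 (𝟙_ C)) (M : C) :
    (superDim R M).natAbs ∈ {n : ℕ | ∃ x : M ⟶ M, NumTriv (x ≫ x - 𝟙 M) ∧
      ctr x = (n : ℚ) • 𝟙 (𝟙_ C)} := by
  rcases le_total 0 (superDim R M) with h | h
  · obtain ⟨h1, h2⟩ := ctr_scalar R hunit M 1 (by norm_num)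
    refine ⟨_, h1, ?_⟩
    rw [h2, Nat.cast_natAbs, abs_of_nonneg h, one_mul]
  · obtain ⟨h1, h2⟩ := ctr_scalar R hunit M (-1) (by norm_num)
    refine ⟨_, h1, ?_⟩
    rw [h2, Nat.cast_natAbs, abs_of_nonpos h]
    push_cast
    rw [neg_one_mul]

/-- **The bounds for the numerical dimension.** -/
theorem num_bounds (hunit : ∀ z : 𝟙_ C ⟶ 𝟙_ C, ∃ q : ℚ, z = q • 𝟙 (𝟙_ C)) (M : C) :
    (superDim R M).natAbs ≤ numDim M ∧ numDim M + 2 * rankDist R M ≤ Q20.Cp.dimH R M := by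
  refine ⟨le_csSup (numSet_bdd R hunit M) (natAbs_mem R hunit M), ?_⟩
  obtain ⟨x, hx, hn⟩ := Nat.sSup_mem ⟨_, natAbs_mem R hunit M⟩ (numSet_bdd R hunit M)
  change ctr x = (numDim M : ℚ) • 𝟙 (𝟙_ C) at hn
  obtain ⟨m, hm, hr⟩ := ctr_le' R hunit hx hn
  have h1 : numDim M + 2 * m = Q20.Cp.dimH R M := by exact_mod_cast hm
  omega

lemma dimH_tp (M : C) (n : ℕ) : Q20.Cp.dimH R (tp M n) = Q20.Cp.dimH R M ^ n := finrank_tp R M n

/-- **The gap.** -/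
theorem num_gap (hunit : ∀ z : 𝟙_ C ⟶ 𝟙_ C, ∃ q : ℚ, z = q • 𝟙 (𝟙_ C)) {M : C}
    (hM : ¬ R.CPlus M) {n : ℕ} (hn : 1 ≤ n) :
    2 * Q20.Cp.dimH R M ^ n + (n + 1) ^ (Q20.Cp.dimH R M ^ 2) * numDim (tp M n) ≤
      (n + 1) ^ (Q20.Cp.dimH R M ^ 2) * Q20.Cp.dimH R M ^ n := by
  have h1 := rank_law R hunit hM hn
  have h2 := (num_bounds R hunit (tp M n)).2
  rw [dimH_tp] at h2
  calc 2 * Q20.Cp.dimH R M ^ n + (n + 1) ^ (Q20.Cp.dimH R M ^ 2) * numDim (tp M n)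
      ≤ 2 * ((n + 1) ^ (Q20.Cp.dimH R M ^ 2) * rankDist R (tp M n)) +
        (n + 1) ^ (Q20.Cp.dimH R M ^ 2) * numDim (tp M n) :=
        Nat.add_le_add_right (Nat.mul_le_mul_left _ h1) _
    _ = (n + 1) ^ (Q20.Cp.dimH R M ^ 2) * (numDim (tp M n) + 2 * rankDist R (tp M n)) := by ring
    _ ≤ _ := Nat.mul_le_mul_left _ h2

theorem num_of_cplus (hunit : ∀ z : 𝟙_ C ⟶ 𝟙_ C, ∃ q : ℚ, z = q • 𝟙 (𝟙_ C)) {M : C}
    (hM : R.CPlus M) (n : ℕ) : numDim (tp M n) = Q20.Cp.dimH R M ^ n := by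
  rw [← dimH_tp]
  exact ((Q20.Cp.numDim_iff R hunit (tp M n)).1 (cplus_tp R hM n)).symm

end

end Pool.Agent.Q57.NL
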